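import Pool.Agent.N139.FG.Stm

/-! FG/LOW: projections in the span of a finite subgroup (project of helper139). -/

set_option autoImplicit false

namespace Pool.Agent.N36.FG

open N139.FG

theorem t_LOW : S_LOW := by
  classical
  intro G _ D _ lam τ h1 hmul hstar hτ1 hτ0 H hH p hp hpp hps hp0
  let _ : Fintype H := Fintype.ofFinite H
  obtain ⟨c, hc⟩ : ∃ c : H → ℂ, ∑ h : H, c h • lam (h : G) = p := by
    rw [Set.image_eq_range] at hp
    exact (Submodule.mem_span_range_iff_exists_fun ℂ).1 hp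
  -- the trace of a group element
  have hτ : ∀ g : H, τ (lam (g : G)) = if g = 1 then 1 else 0 := by
    intro g
    by_cases hg : g = 1
    · rw [if_pos hg, hg, OneMemClass.coe_one, h1, hτ1]
    · rw [if_neg hg]
      refine hτ0 _ fun h => hg ?_
      exact Subtype.ext h
  -- coefficients
  have hcoef : ∀ (d : H → ℂ) (g : H), τ (lam ((g⁻¹ : H) : G) * ∑ h : H, d h • lam (h : G)) =
      d g := by
    intro d g
    rw [Finset.mul_sum, map_sum]
    rw [Finset.sum_eq_single g]
    · rw [mul_smul_comm, map_smul, ← hmul, ← Subgroup.coe_mul, inv_mul_cancel, hτ, if_pos rfl,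
        smul_eq_mul, mul_one]
    · intro h _ hne
      rw [mul_smul_comm, map_smul, ← hmul, ← Subgroup.coe_mul, hτ, if_neg, smul_zero]
      intro h0
      exact hne (inv_mul_eq_one.1 h0).symm
    · intro h0
      exact absurd (Finset.mem_univ g) h0
  have hcp : ∀ g : H, τ (lam ((g⁻¹ : H) : G) * p) = c g := by
    intro g
    rw [← hc]
    exact hcoef c g
  -- star
  have hst : ∀ g : H, c g⁻¹ = star (c g) := by
    intro g
    have e1 : p = ∑ h : H, star (c h⁻¹) • lam (h : G) := by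
      rw [← hps, ← hc, star_sum]
      rw [← Equiv.sum_comp (Equiv.inv H)]
      refine Finset.sum_congr rfl fun h _ => ?_
      rw [star_smul, Equiv.inv_apply, Subgroup.coe_inv, hstar, star_star]
    have e2 : c g⁻¹ = star (c (g⁻¹)⁻¹) := by
      rw [← hcp g⁻¹]
      conv_lhs => rw [e1]
      exact hcoef _ _
    rw [e2, inv_inv]
  -- multiplication
  have hm : ∀ g : H, c g = ∑ h : H, c h * c (h⁻¹ * g) := by
    intro g
    have e1 : c g = τ (lam ((g⁻¹ : H) : G) * (p * p)) := by rw [hpp, hcp]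
    have e3 : lam ((g⁻¹ : H) : G) * p = ∑ h : H, c h • lam ((g⁻¹ * h : H) : G) := by
      conv_lhs => rw [← hc]
      rw [Finset.mul_sum]
      refine Finset.sum_congr rfl fun h _ => ?_
      rw [mul_smul_comm, ← hmul, ← Subgroup.coe_mul]
    rw [e1, ← mul_assoc, e3, Finset.sum_mul, map_sum]
    refine Finset.sum_congr rfl fun h _ => ?_
    rw [smul_mul_assoc, map_smul, smul_eq_mul]
    have e2 : (g⁻¹ * h : H) = (h⁻¹ * g)⁻¹ := by group
    rw [e2, hcp]
  obtain ⟨S, hS⟩ : ∃ S : ℝ, S = ∑ h : H, ‖c h‖ ^ 2 := ⟨_, rfl⟩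
  have hc1 : c 1 = (S : ℂ) := by
    rw [hm 1, hS, Complex.ofReal_sum]
    refine Finset.sum_congr rfl fun h _ => ?_
    rw [mul_one, hst h]
    have : star (c h) = (starRingEnd ℂ) (c h) := rfl
    rw [this, Complex.mul_conj, Complex.normSq_eq_norm_sq]
  have hτp : τ p = c 1 := by
    rw [← hcp 1, inv_one, OneMemClass.coe_one, h1, one_mul]
  have hle : ∀ g : H, ‖c g‖ ≤ S := by
    intro g
    have e1 : ∑ h : H, ‖c (h⁻¹ * g)‖ ^ 2 = S := by
      rw [hS]
      exact Equiv.sum_comp ((Equiv.inv H).trans (Equiv.mulRight g)) (fun h => ‖c h‖ ^ 2)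
    have e2 : ‖c g‖ ≤ ∑ h : H, (‖c h‖ ^ 2 + ‖c (h⁻¹ * g)‖ ^ 2) / 2 := by
      conv_lhs => rw [hm g]
      refine (norm_sum_le _ _).trans (Finset.sum_le_sum fun h _ => ?_)
      rw [norm_mul]
      nlinarith [sq_nonneg (‖c h‖ - ‖c (h⁻¹ * g)‖)]
    rw [← Finset.sum_div, Finset.sum_add_distrib, e1, ← hS] at e2
    linarith
  have hS0 : 0 < S := by
    have h0 : 0 ≤ S := by rw [hS]; positivity
    rcases h0.lt_or_eq with h | h
    · exact h
    · exfalso
      apply hp0
      rw [← hc]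
      refine Finset.sum_eq_zero fun g _ => ?_
      have := hle g
      rw [← h] at this
      rw [norm_le_zero_iff.1 this, zero_smul]
  have hfin : S ≤ (Fintype.card H : ℝ) * S ^ 2 := by
    conv_lhs => rw [hS]
    calc ∑ h : H, ‖c h‖ ^ 2 ≤ ∑ _h : H, S ^ 2 := by
          refine Finset.sum_le_sum fun h _ => ?_
          exact pow_le_pow_left₀ (norm_nonneg _) (hle h) 2
      _ = (Fintype.card H : ℝ) * S ^ 2 := by
          rw [Finset.sum_const, Finset.card_univ, nsmul_eq_mul]
  rw [hτp, hc1, Complex.ofReal_re, Nat.card_eq_fintype_card]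
  have hcard : (0 : ℝ) < Fintype.card H := by
    exact_mod_cast Fintype.card_pos
  rw [div_le_iff₀ hcard]
  have h3 : S * 1 ≤ S * (S * Fintype.card H) := by nlinarith
  exact le_of_mul_le_mul_left h3 hS0

end Pool.Agent.N36.FG

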